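import Pool.Agent.T9h94.CZ.Spec3
import Pool.Agent.T9h94.CZ.Fin2

set_option autoImplicit false

namespace Pool.Agent.T9h71.CZ

open Pool.Agent.T9h94.CZ

/-- the two subgroups commute -/
def Com {P : Type} [Group P] (A B : Subgroup P) : Prop := ∀ a ∈ A, ∀ b ∈ B, a * b = b * a

theorem Com.symm {P : Type} [Group P] {A B : Subgroup P} (h : Com A B) : Com B A :=
  fun b hb a ha => (h a ha b hb).symm

theorem exists_mul {P : Type} [Group P] {A B : Subgroup P} (h : Com A B) (hs : A ⊔ B = ⊤) (x : P) :
    ∃ a ∈ A, ∃ b ∈ B, a * b = x := by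
  have hc : ∀ (m : A) (n : B), Commute (A.subtype m) (B.subtype n) :=
    fun m n => h m m.2 n n.2
  have hr : (MonoidHom.noncommCoprod A.subtype B.subtype hc).range = ⊤ := by
    rw [MonoidHom.noncommCoprod_range, Subgroup.range_subtype, Subgroup.range_subtype, hs]
  have hx : x ∈ (MonoidHom.noncommCoprod A.subtype B.subtype hc).range := by rw [hr]; trivial
  obtain ⟨⟨a, b⟩, hab⟩ := hx
  exact ⟨a, a.2, b, b.2, by simpa using hab⟩

theorem mem_center_of {P : Type} [Group P] {A B : Subgroup P} (h : Com A B) (hs : A ⊔ B = ⊤)
    {z : P} (h1 : ∀ a ∈ A, a * z = z * a) (h2 : ∀ b ∈ B, b * z = z * b) :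
    z ∈ Subgroup.center P := by
  rw [Subgroup.mem_center_iff]
  intro g
  obtain ⟨a, ha, b, hb, rfl⟩ := exists_mul h hs g
  rw [mul_assoc, h2 b hb, ← mul_assoc, h1 a ha, mul_assoc]

theorem eq_one_of {P : Type} [Group P] (hc : Subgroup.center P = ⊥) {A B : Subgroup P}
    (h : Com A B) (hs : A ⊔ B = ⊤)
    {z : P} (h1 : ∀ a ∈ A, a * z = z * a) (h2 : ∀ b ∈ B, b * z = z * b) : z = 1 := by
  have h3 := mem_center_of h hs h1 h2
  rw [hc] at h3
  exact h3

theorem prodEquiv {P : Type} [Group P] (hc : Subgroup.center P = ⊥) {A B : Subgroup P}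
    (h : Com A B) (hs : A ⊔ B = ⊤) : ∃ e : A × B ≃* P, ∀ p, e p = (p.1 : P) * (p.2 : P) := by
  have hcm : ∀ (m : A) (n : B), Commute (A.subtype m) (B.subtype n) :=
    fun m n => h m m.2 n n.2
  have hbij : Function.Bijective (MonoidHom.noncommCoprod A.subtype B.subtype hcm) := by
    constructor
    · rw [injective_iff_map_eq_one]
      rintro ⟨a, b⟩ hab
      have hab' : (a : P) * (b : P) = 1 := by simpa using hab
      have ha : (a : P) = (b : P)⁻¹ := eq_inv_of_mul_eq_one_left hab'
      have haB : (a : P) ∈ B := by rw [ha]; exact B.inv_mem b.2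
      have ha1 : (a : P) = 1 :=
        eq_one_of hc h hs (fun x hx => h x hx a haB) (fun y hy => (h a a.2 y hy).symm)
      have hb1 : (b : P) = 1 := by rw [ha1, one_mul] at hab'; exact hab'
      ext
      · exact ha1
      · exact hb1
    · intro x
      obtain ⟨a, ha, b, hb, rfl⟩ := exists_mul h hs x
      exact ⟨(⟨a, ha⟩, ⟨b, hb⟩), by simp⟩
  exact ⟨MulEquiv.ofBijective _ hbij, fun p => by simp⟩

theorem eq_centralizer {P : Type} [Group P] (hc : Subgroup.center P = ⊥) {A B : Subgroup P}
    (h : Com A B) (hs : A ⊔ B = ⊤) : A = Subgroup.centralizer (B : Set P) := by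
  apply le_antisymm
  · intro a ha
    rw [Subgroup.mem_centralizer_iff]
    intro b hb
    exact (h a ha b hb).symm
  · intro x hx
    rw [Subgroup.mem_centralizer_iff] at hx
    obtain ⟨a, ha, b, hb, rfl⟩ := exists_mul h hs x
    have hb1 : b = 1 := by
      refine eq_one_of hc h hs (fun y hy => h y hy b hb) (fun y hy => ?_)
      have h3 := hx y hy
      have h4 := h a ha y hy
      have h5 : a * (y * b) = a * (b * y) := by
        calc a * (y * b) = (a * y) * b := by group
          _ = (y * a) * b := by rw [h4]
          _ = y * (a * b) := by group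
          _ = (a * b) * y := h3
          _ = a * (b * y) := by group
      exact mul_left_cancel h5
    rw [hb1, mul_one]
    exact ha

theorem eqN_sub {P : Type} [Group P] (h : EqN P) (D : Subgroup P) : EqN D := by
  intro α _ S
  obtain ⟨T, hT, hTS, hE⟩ := h α S
  have key : ∀ (x : α → D) (w : FreeGroup α),
      FreeGroup.lift (fun a => (x a : P)) w = ((FreeGroup.lift x w : D) : P) := by
    intro x w
    have : (FreeGroup.lift (fun a => (x a : P))) = D.subtype.comp (FreeGroup.lift x) := by
      ext a
      simp
    rw [this]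
    rfl
  refine ⟨T, hT, hTS, ?_⟩
  intro x hx w hw
  have h1 := hE (fun a => (x a : P)) (fun v hv => by rw [key, hx v hv]; rfl) w hw
  rw [key] at h1
  exact Subtype.ext h1

theorem fg_right {P : Type} [Group P] (hf : Group.FG P) (hc : Subgroup.center P = ⊥)
    {A B : Subgroup P} (h : Com A B) (hs : A ⊔ B = ⊤) : Group.FG B := by
  obtain ⟨e, -⟩ := prodEquiv hc h hs
  exact Group.fg_of_surjective (f := (MonoidHom.snd A B).comp e.symm.toMonoidHom)
    (Prod.snd_surjective.comp e.symm.surjective)

theorem fp_left {P : Type} [Group P] (hf : Group.IsFinitelyPresented P)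
    (hc : Subgroup.center P = ⊥)
    {A B : Subgroup P} (h : Com A B) (hs : A ⊔ B = ⊤) : Group.IsFinitelyPresented A := by
  have hB : Group.FG B := fg_right (fg_of_fp hf) hc h hs
  obtain ⟨e, he⟩ := prodEquiv hc h hs
  let f : P →* A := (MonoidHom.fst A B).comp e.symm.toMonoidHom
  have hker : f.ker = B := by
    ext x
    rw [MonoidHom.mem_ker]
    constructor
    · intro hx
      have h1 : (e.symm x).1 = 1 := hx
      have h2 : e (e.symm x) = x := e.apply_symm_apply x
      rw [he, h1] at h2
      rw [← h2]
      simp
    · intro hx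
      have h2 : e (1, ⟨x, hx⟩) = x := by rw [he]; simp
      change (e.symm x).1 = 1
      rw [← h2, e.symm_apply_apply]
  have hfg : Group.FG f.ker := by rw [hker]; exact hB
  exact Group.IsFinitelyPresented.of_surjective f
    (Prod.fst_surjective.comp e.symm.surjective)
    (Subgroup.IsFinitelyNormallyGenerated.of_FG f.ker)

/-- strict inclusion of centralisers -/
def Rel {P : Type} [Group P] (A B : Subgroup P) : Prop :=
  A < B ∧ (∃ s : Set P, A = Subgroup.centralizer s) ∧ ∃ t : Set P, B = Subgroup.centralizer t

theorem wf_rel {P : Type} [Group P] (hfp : Group.IsFinitelyPresented P) (hE : EqN P) :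
    WellFounded (Rel (P := P)) := by
  rw [wellFounded_iff_isEmpty_descending_chain]
  refine ⟨?_⟩
  rintro ⟨s, hs⟩
  obtain ⟨n, Y, hY⟩ : ∃ (n : ℕ) (Y : Fin n → P), Function.Surjective (FreeGroup.lift Y) := by
    obtain ⟨n, φ, hφ, -⟩ := hfp.out
    refine ⟨n, fun i => φ (FreeGroup.of i), ?_⟩
    have : FreeGroup.lift (fun i => φ (FreeGroup.of i)) = φ := by
      ext i
      simp
    rw [this]
    exact hφ
  choose w hw using hY
  let E : ℕ → Set P := fun k => (Subgroup.centralizer (s k : Set P) : Set P)
  have hEs : ∀ k, s k = Subgroup.centralizer (E k) := by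
    intro k
    obtain ⟨-, -, t, ht⟩ := hs k
    apply le_antisymm
    · intro x hx
      rw [Subgroup.mem_centralizer_iff]
      intro y hy
      have hy' := (Subgroup.mem_centralizer_iff.mp hy) x hx
      exact hy'.symm
    · intro x hx
      rw [ht, Subgroup.mem_centralizer_iff]
      intro y hy
      refine (Subgroup.mem_centralizer_iff.mp hx) y ?_
      change y ∈ Subgroup.centralizer (s k : Set P)
      rw [Subgroup.mem_centralizer_iff]
      intro z hz
      rw [ht] at hz
      exact ((Subgroup.mem_centralizer_iff.mp hz) y hy).symm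
  have hmono : Monotone E := by
    refine monotone_nat_of_le_succ ?_
    intro k x hx
    change x ∈ Subgroup.centralizer _
    rw [Subgroup.mem_centralizer_iff]
    intro y hy
    exact (Subgroup.mem_centralizer_iff.mp hx) y ((hs k).1.le hy)
  let c : P → FreeGroup (Option (Fin n)) := fun e =>
    (FreeGroup.of none : FreeGroup (Option (Fin n))) * FreeGroup.map some (w e) *
      (FreeGroup.of none)⁻¹ * (FreeGroup.map some (w e))⁻¹
  have hc : ∀ (x e : P), FreeGroup.lift (fun o : Option (Fin n) => o.elim x Y) (c e) =
      x * e * x⁻¹ * e⁻¹ := by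
    intro x e
    have h1 : (FreeGroup.lift (fun o : Option (Fin n) => o.elim x Y)).comp (FreeGroup.map some) =
        FreeGroup.lift Y := by
      ext i
      simp
    have h2 : FreeGroup.lift (fun o : Option (Fin n) => o.elim x Y) (FreeGroup.map some (w e)) =
        e := by
      have h3 := DFunLike.congr_fun h1 (w e)
      rw [hw] at h3
      exact h3
    simp only [c, map_mul, map_inv, h2]
    simp
  obtain ⟨T, hT, hTS, hTe⟩ := hE (Option (Fin n)) (⋃ k, c '' E k)
  obtain ⟨k, hk⟩ : ∃ k, T ⊆ c '' E k := by
    have hm : Monotone fun k => c '' E k := fun a b hab => Set.image_mono (hmono hab)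
    choose κ hκ using fun v : T => Set.mem_iUnion.mp (hTS v.2)
    have hfT : Finite T := hT.to_subtype
    obtain ⟨K, hK⟩ := (Set.finite_range κ).bddAbove
    exact ⟨K, fun v hv => hm (hK ⟨⟨v, hv⟩, rfl⟩) (hκ ⟨v, hv⟩)⟩
  have hle : s k ≤ s (k + 1) := by
    intro x hx
    rw [hEs (k + 1), Subgroup.mem_centralizer_iff]
    intro e he
    have h1 : FreeGroup.lift (fun o : Option (Fin n) => o.elim x Y) (c e) = 1 := by
      refine hTe _ ?_ (c e) (Set.mem_iUnion.mpr ⟨k + 1, e, he, rfl⟩)
      intro v hv
      obtain ⟨e', he', rfl⟩ := hk hv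
      rw [hEs k, Subgroup.mem_centralizer_iff] at hx
      rw [hc, ← hx e' he']
      group
    rw [hc] at h1
    have h3 : x * e * x⁻¹ = e := by
      have h4 := mul_eq_one_iff_eq_inv.mp h1
      rwa [inv_inv] at h4
    calc e * x = (x * e * x⁻¹) * x := by rw [h3]
      _ = x * e := by group
  exact absurd hle (not_le_of_gt (hs k).1)

theorem sCentreless : SCentreless := by
  intro h P _ hfp hE hc
  have hwf := wf_rel hfp hE
  have claim : ∀ D : Subgroup P, ∀ E : Subgroup P, Com D E → D ⊔ E = ⊤ → Neutral D := by
    intro D
    induction D using hwf.induction with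
    | _ D ih =>
      intro E hcom hsup
      by_cases hP : Prim D
      · exact h D (fp_left hfp hc hcom hsup) (eqN_sub hE D) hP
      · unfold Prim at hP
        push Not at hP
        obtain ⟨A, B, hAB, hABt, hA, hB⟩ := hP
        have hcD : Subgroup.center D = ⊥ := by
          rw [eq_bot_iff]
          intro z hz
          rw [Subgroup.mem_center_iff] at hz
          rw [Subgroup.mem_bot]
          apply Subtype.ext
          refine eq_one_of hc hcom hsup (fun a ha => ?_) (fun e he => ?_)
          · exact congrArg Subtype.val (hz ⟨a, ha⟩)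
          · exact (hcom z z.2 e he).symm
        have hmapsup : A.map D.subtype ⊔ B.map D.subtype = D := by
          rw [← Subgroup.map_sup, hABt, ← MonoidHom.range_eq_map, Subgroup.range_subtype]
        have hAD : A.map D.subtype ≤ D := by
          rintro _ ⟨a, -, rfl⟩
          exact a.2
        have hBD : B.map D.subtype ≤ D := by
          rintro _ ⟨a, -, rfl⟩
          exact a.2
        have hcAB : Com (A.map D.subtype) (B.map D.subtype) := by
          rintro _ ⟨a, ha, rfl⟩ _ ⟨b, hb, rfl⟩
          exact congrArg Subtype.val (hAB a ha b hb)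
        have step : ∀ A B : Subgroup D, Com (A.map D.subtype) (B.map D.subtype) →
            A.map D.subtype ⊔ B.map D.subtype = D → A.map D.subtype ≤ D → B.map D.subtype ≤ D →
            B ≠ ⊥ → Neutral A := by
          intro A B hcAB hmapsup hAD hBD hB
          have hcom1 : Com (A.map D.subtype) (B.map D.subtype ⊔ E) := by
            intro a ha x hx
            have : x ∈ Subgroup.centralizer ((A.map D.subtype : Subgroup P) : Set P) := by
              refine (sup_le ?_ ?_ : B.map D.subtype ⊔ E ≤ _) hx
              · intro b hb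
                rw [Subgroup.mem_centralizer_iff]
                intro a ha
                exact hcAB a ha b hb
              · intro e he
                rw [Subgroup.mem_centralizer_iff]
                intro a ha
                exact hcom a (hAD ha) e he
            exact (Subgroup.mem_centralizer_iff.mp this) a ha
          have hsup1 : A.map D.subtype ⊔ (B.map D.subtype ⊔ E) = ⊤ := by
            rw [← sup_assoc, hmapsup, hsup]
          have hlt : A.map D.subtype < D := by
            refine lt_of_le_of_ne hAD ?_
            intro heq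
            apply hB
            rw [eq_bot_iff]
            intro b hb
            rw [Subgroup.mem_bot]
            apply Subtype.ext
            have hbm : (b : P) ∈ B.map D.subtype := ⟨b, hb, rfl⟩
            refine eq_one_of hc hcom hsup (fun a ha => ?_) (fun e he => ?_)
            · rw [← heq] at ha
              exact hcAB a ha b hbm
            · exact (hcom b b.2 e he).symm
          have hN := ih (A.map D.subtype)
            ⟨hlt, ⟨_, eq_centralizer hc hcom1 hsup1⟩, ⟨_, eq_centralizer hc hcom hsup⟩⟩
            _ hcom1 hsup1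
          exact hN.congr (A.equivMapOfInjective D.subtype D.subtype_injective).symm
        have hNA : Neutral A := step A B hcAB hmapsup hAD hBD hB
        have hNB : Neutral B := step B A hcAB.symm (by rw [sup_comm]; exact hmapsup) hBD hAD hA
        obtain ⟨e, -⟩ := prodEquiv hcD hAB hABt
        exact (hNA.prod hNB).congr e
  have hT := claim ⊤ ⊥ (by
    intro a _ b hb
    rw [Subgroup.mem_bot] at hb
    rw [hb, mul_one, one_mul]) (by simp)
  exact hT.congr Subgroup.topEquiv

end Pool.Agent.T9h71.CZ

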